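import Pool.Agent.W273.M.Fin

/-!
Hall's conjecture for integral points whose abscissa has a well approximable square root.
-/

set_option autoImplicit false

namespace Pool.Agent.Results.MP_9d7cd1_nt.ApproximableSqrtX

open Pool.Agent.W273.M

/-- (1) Lower bounds for `|y² - x^(2g+3)|` in terms of a rational approximation `a/b` of `√x`,
and (2) Hall's conjecture for all `x` having an approximation with `|b²x - a²|⁸ b⁴ ≤ x³`. -/
theorem result :
    (∀ (g : ℕ) (κ ε : ℝ), 0 ≤ κ → 0 < ε → ∃ c : ℝ, 0 < c ∧ ∀ x y a b : ℤ,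
      0 < x → 0 < y → 0 < a → 0 < b → y ^ 2 ≠ x ^ (2 * g + 3) →
      b ^ 2 * x ≠ a ^ 2 → (b ^ 2 * x - a ^ 2) ^ 2 ≤ x → (b : ℝ) ≤ (x : ℝ) ^ κ →
      c * (x : ℝ) ^ ((2 * g + 3) * Real.log ((x : ℝ) / ((b ^ 2 * x - a ^ 2 : ℤ) : ℝ) ^ 2) /
          Real.log ((x : ℝ) ^ 3 * (b : ℝ) ^ 4 / ((b ^ 2 * x - a ^ 2 : ℤ) : ℝ) ^ 4) - ε) ≤
        |((y ^ 2 - x ^ (2 * g + 3) : ℤ) : ℝ)| ∨
      ((x : ℝ) ^ ((4 * g + 3 : ℝ) / 4) < b ∧ ∃ j : ℕ, 1 ≤ j ∧
        a * ((⟨y, x ^ (g + 1)⟩ : ℤ√x) ^ j).im = b * ((⟨y, x ^ (g + 1)⟩ : ℤ√x) ^ j).re)) ∧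
    (∀ ε : ℝ, 0 < ε → ∃ C : ℝ, ∀ d x y a b : ℤ, d ≠ 0 → y ^ 2 = x ^ 3 + d → 0 < a → 0 < b →
      b ^ 2 * x ≠ a ^ 2 → (b ^ 2 * x - a ^ 2) ^ 8 * b ^ 4 ≤ x ^ 3 →
      Real.log |(x : ℝ)| < (2 + ε) * Real.log |(d : ℝ)| + C) := by
  refine ⟨?_, ?_⟩
  · intro g κ ε hκ hε
    obtain ⟨c, hc0, hc⟩ := fin g κ ε hκ hε
    refine ⟨c, hc0, ?_⟩
    intro x y a b hx hy ha hb hne hN hNx hbx
    have hdd : dd g = 2 * g + 3 := rfl
    have hddR : ((dd g : ℕ) : ℝ) = 2 * g + 3 := by rw [hdd]; push_cast; ring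
    have h := hc x y a b hx hy ha hb (by rw [hdd]; exact hne) hN hNx hbx
    rw [hddR] at h
    have e : (2 * (2 * (g : ℝ) + 3) - 3) / 4 = (4 * g + 3) / 4 := by ring
    rw [e] at h
    exact h
  · intro ε hε
    obtain ⟨δ, hδ⟩ : ∃ δ : ℝ, δ = 1 / 2 - 1 / (2 + ε) := ⟨_, rfl⟩
    have hδ0 : 0 < δ := by
      rw [hδ, sub_pos]
      apply one_div_lt_one_div_of_lt <;> linarith
    obtain ⟨c, hc0, hc⟩ := fin 0 (3 / 4) δ (by norm_num) hδ0
    refine ⟨(2 + ε) * |Real.log c| + 1, ?_⟩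
    intro d x y a b hd hyx ha hb hN hNb
    have hbR : (1 : ℝ) ≤ b := by exact_mod_cast hb
    have hb0 : (0 : ℝ) < b := by linarith
    have hd1 : (1 : ℝ) ≤ |(d : ℝ)| := by
      have : (1 : ℤ) ≤ |d| := Int.one_le_abs hd
      rw [← Int.cast_abs]
      exact_mod_cast this
    have hld : 0 ≤ Real.log |(d : ℝ)| := Real.log_nonneg hd1
    have hKpos : 0 ≤ (2 + ε) * |Real.log c| := by positivity
    obtain ⟨N, hNdef⟩ : ∃ N : ℝ, N = |((b ^ 2 * x - a ^ 2 : ℤ) : ℝ)| := ⟨_, rfl⟩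
    have hN1 : 1 ≤ N := by
      rw [hNdef]
      have : (1 : ℤ) ≤ |b ^ 2 * x - a ^ 2| := Int.one_le_abs (sub_ne_zero.mpr hN)
      rw [← Int.cast_abs]
      exact_mod_cast this
    have hN2 : ((b ^ 2 * x - a ^ 2 : ℤ) : ℝ) ^ 2 = N ^ 2 := by rw [hNdef, sq_abs]
    have hNbR : N ^ 8 * (b : ℝ) ^ 4 ≤ (x : ℝ) ^ 3 := by
      have e : N ^ 8 = ((b ^ 2 * x - a ^ 2 : ℤ) : ℝ) ^ 8 := by
        have e1 : ∀ z : ℝ, z ^ 8 = (z ^ 2) ^ 4 := fun z => by ring
        rw [e1, e1, hN2]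
      rw [e]
      exact_mod_cast hNb
    have hN8 : 1 ≤ N ^ 8 := one_le_pow₀ hN1
    have hb4 : (1 : ℝ) ≤ (b : ℝ) ^ 4 := one_le_pow₀ hbR
    have hx3 : (1 : ℝ) ≤ (x : ℝ) ^ 3 := by
      calc (1 : ℝ) = 1 * 1 := by norm_num
        _ ≤ N ^ 8 * (b : ℝ) ^ 4 := mul_le_mul hN8 hb4 (by norm_num) (by positivity)
        _ ≤ _ := hNbR
    have hx1 : (1 : ℝ) ≤ x := by
      by_contra hlt
      push Not at hlt
      have hx0 : x ≤ 0 := by
        have : x < 1 := by exact_mod_cast hlt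
        linarith
      have h1 : x ^ 3 ≤ 0 := by nlinarith [sq_nonneg x]
      have h2 : (x : ℝ) ^ 3 ≤ 0 := by exact_mod_cast h1
      linarith
    have hx0 : (0 : ℝ) < x := by linarith
    have hxZ : 0 < x := by exact_mod_cast hx0
    have hlx : 0 ≤ Real.log x := Real.log_nonneg hx1
    rw [abs_of_pos hx0]
    -- the case `y = 0`
    rcases eq_or_ne y 0 with hy0 | hy0
    · have h1 : d = -(x ^ 3) := by
        have : (0 : ℤ) ^ 2 = x ^ 3 + d := by rw [← hyx, hy0]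
        linarith
      have h2 : |(d : ℝ)| = (x : ℝ) ^ 3 := by
        rw [h1]
        push_cast
        rw [abs_neg, abs_of_pos (by positivity)]
      rw [h2, Real.log_pow]
      push_cast
      nlinarith
    -- positive ordinate
    have hy1 : 0 < |y| := abs_pos.mpr hy0
    have hyd : |y| ^ 2 - x ^ 3 = d := by rw [sq_abs]; linarith
    have hdd : dd 0 = 3 := rfl
    have hNx : (b ^ 2 * x - a ^ 2) ^ 2 ≤ x := by
      have h1 : N ^ 2 ≤ x := by
        by_contra hlt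
        push Not at hlt
        have h2 : (x : ℝ) ^ 4 < (N ^ 2) ^ 4 := pow_lt_pow_left₀ hlt hx0.le (by norm_num)
        have h3 : (x : ℝ) ^ 3 ≤ (x : ℝ) ^ 4 := pow_le_pow_right₀ hx1 (by norm_num)
        have h4 : (N ^ 2) ^ 4 ≤ N ^ 8 * (b : ℝ) ^ 4 := by
          have : (N ^ 2) ^ 4 = N ^ 8 := by ring
          rw [this]
          exact le_mul_of_one_le_right (by positivity) hb4
        linarith
      rw [← hN2] at h1
      exact_mod_cast h1
    have hbx : (b : ℝ) ≤ (x : ℝ) ^ (3 / 4 : ℝ) := by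
      have h1 : (b : ℝ) ^ 4 ≤ (x : ℝ) ^ 3 := by
        refine le_trans ?_ hNbR
        exact le_mul_of_one_le_left (by positivity) hN8
      have h2 : ((x : ℝ) ^ (3 / 4 : ℝ)) ^ 4 = (x : ℝ) ^ 3 := by
        rw [← Real.rpow_natCast, ← Real.rpow_mul hx0.le, ← Real.rpow_natCast]
        norm_num
      rw [← h2] at h1
      exact le_of_pow_le_pow_left₀ (by norm_num) (by positivity) h1
    have hmain := hc x |y| a b hxZ hy1 ha hb (by
      rw [hdd]
      intro h0
      apply hd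
      rw [← hyd, h0, sub_self]) hN hNx hbx
    rw [hdd] at hmain
    rcases hmain with h | ⟨h, -⟩
    · rw [hyd] at h
      rcases eq_or_lt_of_le hx1 with hx1' | hx1'
      · rw [← hx1', Real.log_one]
        have : 0 ≤ (2 + ε) * Real.log |(d : ℝ)| := by positivity
        linarith
      have hlx' : 0 < Real.log x := Real.log_pos hx1'
      obtain ⟨θ, hθ⟩ : ∃ θ : ℝ, θ = ((3 : ℕ) : ℝ) * Real.log ((x : ℝ) / ((b ^ 2 * x - a ^ 2 : ℤ) : ℝ) ^ 2) /
        Real.log ((x : ℝ) ^ 3 * (b : ℝ) ^ 4 / ((b ^ 2 * x - a ^ 2 : ℤ) : ℝ) ^ 4) := ⟨_, rfl⟩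
      rw [← hθ] at h
      have hN4 : ((b ^ 2 * x - a ^ 2 : ℤ) : ℝ) ^ 4 = N ^ 4 := by
        have e : ∀ z : ℝ, z ^ 4 = (z ^ 2) ^ 2 := fun z => by ring
        rw [e, e, hN2]
      have hNxR : N ^ 2 ≤ x := by rw [← hN2]; exact_mod_cast hNx
      have hlN : 2 * Real.log N ≤ Real.log x := by
        have := Real.log_le_log (by positivity) hNxR
        rw [Real.log_pow] at this
        push_cast at this
        exact this
      have hlb : 0 ≤ Real.log b := Real.log_nonneg hbR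
      have hlNb : 8 * Real.log N + 4 * Real.log b ≤ 3 * Real.log x := by
        have := Real.log_le_log (by positivity) hNbR
        rw [Real.log_mul (by positivity) (by positivity), Real.log_pow, Real.log_pow, Real.log_pow] at this
        push_cast at this
        exact this
      have hθ2 : 1 / 2 ≤ θ := by
        have e1 : Real.log ((x : ℝ) / N ^ 2) = Real.log x - 2 * Real.log N := by
          rw [Real.log_div hx0.ne' (by positivity), Real.log_pow]
          push_cast; ring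
        have e2 : Real.log ((x : ℝ) ^ 3 * (b : ℝ) ^ 4 / N ^ 4) =
            3 * Real.log x + 4 * Real.log b - 4 * Real.log N := by
          rw [Real.log_div (by positivity) (by positivity), Real.log_mul (by positivity) (by positivity),
            Real.log_pow, Real.log_pow, Real.log_pow]
          push_cast; ring
        rw [hθ, hN2, hN4, e1, e2, le_div_iff₀ (by linarith)]
        push_cast
        linarith
      have h2 : c * (x : ℝ) ^ (1 / 2 - δ) ≤ |(d : ℝ)| := by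
        refine le_trans ?_ h
        apply mul_le_mul_of_nonneg_left _ hc0.le
        apply Real.rpow_le_rpow_of_exponent_le hx1
        linarith
      have h3 : Real.log c + (1 / 2 - δ) * Real.log x ≤ Real.log |(d : ℝ)| := by
        have := Real.log_le_log (by positivity) h2
        rw [Real.log_mul hc0.ne' (by positivity), Real.log_rpow hx0] at this
        exact this
      have h4 : 1 / 2 - δ = 1 / (2 + ε) := by rw [hδ]; ring
      rw [h4] at h3
      have h5 : (2 + ε) * (Real.log c + 1 / (2 + ε) * Real.log x) = (2 + ε) * Real.log c + Real.log x := by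
        field_simp
      have h6 := mul_le_mul_of_nonneg_left h3 (by linarith : (0 : ℝ) ≤ 2 + ε)
      rw [h5] at h6
      have h7 : (2 + ε) * (-Real.log c) ≤ (2 + ε) * |Real.log c| :=
        mul_le_mul_of_nonneg_left (neg_le_abs _) (by linarith)
      linarith
    · exfalso
      have e : (2 * ((3 : ℕ) : ℝ) - 3) / 4 = 3 / 4 := by norm_num
      rw [e] at h
      linarith

end Pool.Agent.Results.MP_9d7cd1_nt.ApproximableSqrtX
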